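import Mathlib

namespace Pool.Agent.Results.MP_354fda_al.CrownVNumber

open MvPolynomial

/-! ## Definitions -/

/-- The binomial `x_i y_j - x_j y_i`; the variable `X (v, false)` is `x_v` and `X (v, true)` is
`y_v`. -/
noncomputable def minor (K : Type*) [Field K] {V : Type} (i j : V) :
    MvPolynomial (V × Bool) K :=
  X (i, false) * X (j, true) - X (j, false) * X (i, true)

/-- The binomial edge ideal `J_G`. -/
noncomputable def J (K : Type*) [Field K] {V : Type} (G : SimpleGraph V) :
    Ideal (MvPolynomial (V × Bool) K) :=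
  Ideal.span {p | ∃ i j, G.Adj i j ∧ p = minor K i j}

/-- The ideal `P_T(G)`: all variables at vertices of `T`, and the binomials of all pairs of
vertices in the same connected component of `G - T`. -/
noncomputable def P (K : Type*) [Field K] {V : Type} (G : SimpleGraph V) (T : Set V) :
    Ideal (MvPolynomial (V × Bool) K) :=
  Ideal.span ({p | ∃ i ∈ T, p = X (i, false) ∨ p = X (i, true)} ∪
    {p | ∃ i j : (Tᶜ : Set V), (G.induce Tᶜ).Reachable i j ∧ p = minor K i.1 j.1})

/-- The number `c(T)` of connected components of `G - T`. -/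
noncomputable def comps {V : Type} (G : SimpleGraph V) (T : Set V) : ℕ :=
  Nat.card (G.induce Tᶜ).ConnectedComponent

/-- `T` is in `𝒞(G)`. -/
def IsCut {V : Type} (G : SimpleGraph V) (T : Set V) : Prop :=
  T = ∅ ∨ ∀ i ∈ T, comps G (T \ {i}) < comps G T

/-- The crown graph: `(i, false)` is the vertex `2i-1`, `(i, true)` is the vertex `2i`. -/
def crown (n : ℕ) : SimpleGraph (Fin n × Bool) where
  Adj u v := u.1 ≠ v.1 ∧ u.2 ≠ v.2
  symm := ⟨fun _ _ h => ⟨h.1.symm, h.2.symm⟩⟩
  loopless := ⟨fun _ h => h.1 rfl⟩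

/-! ## The toric maps -/

section engine

variable {K : Type*} [Field K] {V : Type} {L : Type}

open Classical in
/-- the monomial map with kernel `P_T` -/
noncomputable def phi (K : Type*) [Field K] {V L : Type} (T : Set V) (c : V → L) :
    MvPolynomial (V × Bool) K →ₐ[K] MvPolynomial (V ⊕ (L × Bool)) K :=
  aeval (fun p => if p.1 ∈ T then 0 else X (Sum.inl p.1) * X (Sum.inr (c p.1, p.2)))

noncomputable def img (c : V → L) (m : V × Bool →₀ ℕ) : V ⊕ (L × Bool) →₀ ℕ :=
  m.mapDomain (fun p => Sum.inl p.1) + m.mapDomain (fun p => Sum.inr (c p.1, p.2))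

def Av (T : Set V) (m : V × Bool →₀ ℕ) : Prop := ∀ p, p.1 ∈ T → m p = 0

theorem img_add (c : V → L) (m m' : V × Bool →₀ ℕ) : img c (m + m') = img c m + img c m' := by
  unfold img
  rw [Finsupp.mapDomain_add, Finsupp.mapDomain_add]
  abel

theorem img_zero (c : V → L) : img c (0 : V × Bool →₀ ℕ) = 0 := by
  simp [img]

theorem img_single (c : V → L) (p : V × Bool) (n : ℕ) :
    img c (Finsupp.single p n) =
      Finsupp.single (Sum.inl p.1) n + Finsupp.single (Sum.inr (c p.1, p.2)) n := by
  simp [img, Finsupp.mapDomain_single]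

theorem av_add {T : Set V} {m m' : V × Bool →₀ ℕ} : Av T (m + m') ↔ Av T m ∧ Av T m' := by
  unfold Av
  constructor
  · intro h
    refine ⟨fun p hp => ?_, fun p hp => ?_⟩ <;>
    · have := h p hp
      simp only [Finsupp.add_apply] at this
      omega
  · rintro ⟨h1, h2⟩ p hp
    simp [h1 p hp, h2 p hp]

theorem av_zero {T : Set V} : Av T (0 : V × Bool →₀ ℕ) := fun _ _ => rfl

open Classical in
theorem phi_monomial (T : Set V) (c : V → L) (m : V × Bool →₀ ℕ) :
    phi K T c (monomial m 1) = if Av T m then monomial (img c m) 1 else 0 := by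
  induction m using Finsupp.induction_linear with
  | zero => simp [av_zero, img_zero, phi]
  | add m m' h h' =>
    have : (monomial (m + m') (1 : K)) = monomial m 1 * monomial m' 1 := by
      simp [monomial_mul]
    rw [this, map_mul, h, h', img_add]
    by_cases a : Av T m <;> by_cases b : Av T m' <;> simp [a, b, av_add, monomial_mul]
  | single p n =>
    have e : (monomial (Finsupp.single p n) (1 : K)) = X p ^ n := by
      rw [X_pow_eq_monomial]
    rw [e, map_pow, img_single]
    have : phi K T c (X p) = if p.1 ∈ T then 0 else X (Sum.inl p.1) * X (Sum.inr (c p.1, p.2)) := by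
      simp [phi]
    rw [this]
    by_cases hp : p.1 ∈ T
    · rw [if_pos hp]
      rcases Nat.eq_zero_or_pos n with rfl | hn
      · simp [av_zero]
      · rw [zero_pow hn.ne', if_neg]
        intro h
        have := h p hp
        simp at this
        omega
    · rw [if_neg hp, if_pos]
      · rw [mul_pow, X_pow_eq_monomial, X_pow_eq_monomial, monomial_mul, one_mul]
      · intro q hq
        rw [Finsupp.single_apply, if_neg]
        rintro rfl
        exact hp hq

theorem phi_eq_sum (T : Set V) (c : V → L) (f : MvPolynomial (V × Bool) K) :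
    phi K T c f = ∑ m ∈ f.support, coeff m f • phi K T c (monomial m 1) := by
  conv_lhs => rw [f.as_sum]
  rw [map_sum]
  refine Finset.sum_congr rfl fun m _ => ?_
  rw [← map_smul, smul_monomial, smul_eq_mul, mul_one]

open Classical in
theorem fiber_sum (T : Set V) (c : V → L) (f : MvPolynomial (V × Bool) K) (hf : phi K T c f = 0)
    (t : V ⊕ (L × Bool) →₀ ℕ) :
    ∑ m ∈ f.support.filter (fun m => Av T m ∧ img c m = t), coeff m f = 0 := by
  have h := congrArg (coeff t) hf
  rw [phi_eq_sum, coeff_sum, coeff_zero] at h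
  rw [← h, Finset.sum_filter]
  refine Finset.sum_congr rfl fun m _ => ?_
  rw [coeff_smul, phi_monomial, smul_eq_mul]
  by_cases a : Av T m
  · rw [if_pos a, coeff_monomial]
    simp [a]
  · simp [a]

theorem img_inl (c : V → L) (m : V × Bool →₀ ℕ) (v : V) :
    img c m (Sum.inl v) = m.mapDomain Prod.fst v := by
  unfold img
  have h1 : m.mapDomain (fun p : V × Bool => (Sum.inl p.1 : V ⊕ (L × Bool))) =
      (m.mapDomain Prod.fst).mapDomain Sum.inl := by
    rw [← Finsupp.mapDomain_comp]; rfl
  have h2 : m.mapDomain (fun p : V × Bool => (Sum.inr (c p.1, p.2) : V ⊕ (L × Bool))) =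
      (m.mapDomain (fun p => (c p.1, p.2))).mapDomain Sum.inr := by
    rw [← Finsupp.mapDomain_comp]; rfl
  rw [h1, h2, Finsupp.add_apply, Finsupp.mapDomain_apply Sum.inl_injective,
    Finsupp.mapDomain_of_notMem_range (a := Sum.inl v), add_zero]
  simp

theorem img_inr (c : V → L) (m : V × Bool →₀ ℕ) (v : L × Bool) :
    img c m (Sum.inr v) = m.mapDomain (fun p => (c p.1, p.2)) v := by
  unfold img
  have h1 : m.mapDomain (fun p : V × Bool => (Sum.inl p.1 : V ⊕ (L × Bool))) =
      (m.mapDomain Prod.fst).mapDomain Sum.inl := by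
    rw [← Finsupp.mapDomain_comp]; rfl
  have h2 : m.mapDomain (fun p : V × Bool => (Sum.inr (c p.1, p.2) : V ⊕ (L × Bool))) =
      (m.mapDomain (fun p => (c p.1, p.2))).mapDomain Sum.inr := by
    rw [← Finsupp.mapDomain_comp]; rfl
  rw [h1, h2, Finsupp.add_apply, Finsupp.mapDomain_apply Sum.inr_injective,
    Finsupp.mapDomain_of_notMem_range (a := Sum.inr v), zero_add]
  simp

theorem vdeg_eq {c : V → L} {m m' : V × Bool →₀ ℕ} (h : img c m = img c m') :
    m.mapDomain Prod.fst = m'.mapDomain Prod.fst := by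
  ext v
  rw [← img_inl c, ← img_inl c, h]

theorem cdeg_eq {c : V → L} {m m' : V × Bool →₀ ℕ} (h : img c m = img c m') :
    m.mapDomain (fun p => (c p.1, p.2)) = m'.mapDomain (fun p => (c p.1, p.2)) := by
  ext v
  rw [← img_inr c, ← img_inr c, h]

theorem phi_minor (T : Set V) (c : V → L) (i j : V) (hc : i ∉ T → j ∉ T → c i = c j) :
    phi K T c (minor K i j) = 0 := by
  classical
  unfold minor phi
  simp only [map_sub, map_mul, aeval_X]
  by_cases hi : i ∈ T
  · simp [hi]
  · by_cases hj : j ∈ T
    · simp [hj]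
    · simp only [hi, hj, if_false, hc hi hj]
      ring

theorem phi_minor_ne (T : Set V) (c : V → L) (i j : V) (hi : i ∉ T) (hj : j ∉ T)
    (hc : c i ≠ c j) : phi K T c (minor K i j) ≠ 0 := by
  classical
  have e : minor K i j = monomial (Finsupp.single (i, false) 1 + Finsupp.single (j, true) 1) 1 -
      monomial (Finsupp.single (j, false) 1 + Finsupp.single (i, true) 1) 1 := by
    unfold minor X
    simp [monomial_mul]
  rw [e, map_sub, phi_monomial, phi_monomial]
  have key : ∀ (u w : V) (b b' : Bool), u ∉ T → w ∉ T →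
      Av T (Finsupp.single (u, b) 1 + Finsupp.single (w, b') 1) := by
    intro u w b b' hu hw p hp
    have h1 : (u, b) ≠ p := by rintro rfl; exact hu hp
    have h2 : (w, b') ≠ p := by rintro rfl; exact hw hp
    simp [h1, h2]
  rw [if_pos (key _ _ _ _ hi hj), if_pos (key _ _ _ _ hj hi), sub_ne_zero]
  intro h
  have h2 := (monomial_eq_monomial_iff _ _ _ _).1 h
  rcases h2 with ⟨h2, _⟩ | ⟨h2, _⟩
  · have h3 := DFunLike.congr_fun (cdeg_eq h2) (c i, false)
    simp [Finsupp.mapDomain_add, Finsupp.mapDomain_single, hc.symm] at h3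
  · exact one_ne_zero h2

theorem phi_var_ne (T : Set V) (c : V → L) (i : V) (b : Bool) (hi : i ∉ T) :
    phi K T c (X (i, b)) ≠ 0 := by
  classical
  unfold phi
  simp only [aeval_X, hi, if_false]
  exact mul_ne_zero (X_ne_zero _) (X_ne_zero _)

theorem J_le (G : SimpleGraph V) (T : Set V) (c : V → L)
    (hc : ∀ i j, G.Adj i j → i ∉ T → j ∉ T → c i = c j) {f : MvPolynomial (V × Bool) K}
    (hf : f ∈ J K G) : phi K T c f = 0 := by
  have : J K G ≤ RingHom.ker (phi K T c) := by
    unfold J
    rw [Ideal.span_le]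
    rintro p ⟨i, j, hij, rfl⟩
    exact phi_minor T c i j (hc i j hij)
  exact this hf

/-! ## Classes of monomials -/

open Classical in
theorem mem_of_class_sums {σ : Type*} (I : Ideal (MvPolynomial σ K)) (f : MvPolynomial σ K)
    (h : ∀ m0 ∈ f.support, monomial m0 (1 : K) ∉ I →
      ∑ m ∈ f.support.filter (fun m => monomial m (1 : K) - monomial m0 1 ∈ I), coeff m f = 0) :
    f ∈ I := by
  rw [← Ideal.Quotient.eq_zero_iff_mem]
  have e : Ideal.Quotient.mk I f = ∑ m ∈ f.support,
      Ideal.Quotient.mk I (C (coeff m f)) * Ideal.Quotient.mk I (monomial m 1) := by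
    conv_lhs => rw [f.as_sum]
    rw [map_sum]
    refine Finset.sum_congr rfl fun m _ => ?_
    rw [← map_mul, C_mul_monomial, mul_one]
  rw [e, ← Finset.sum_fiberwise_of_maps_to
    (g := fun m => Ideal.Quotient.mk I (monomial m (1 : K)))
    (t := f.support.image fun m => Ideal.Quotient.mk I (monomial m (1 : K)))
    (fun m hm => Finset.mem_image_of_mem _ hm)]
  refine Finset.sum_eq_zero fun κ hκ => ?_
  obtain ⟨m0, hm0, rfl⟩ := Finset.mem_image.1 hκ
  by_cases hz : monomial m0 (1 : K) ∈ I
  · refine Finset.sum_eq_zero fun m hm => ?_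
    rw [(Finset.mem_filter.1 hm).2, Ideal.Quotient.eq_zero_iff_mem.2 hz, mul_zero]
  · have h1 := h m0 hm0 hz
    have h2 : ∑ m ∈ f.support.filter (fun m => Ideal.Quotient.mk I (monomial m (1 : K)) =
        Ideal.Quotient.mk I (monomial m0 1)),
        Ideal.Quotient.mk I (C (coeff m f)) * Ideal.Quotient.mk I (monomial m 1) =
      Ideal.Quotient.mk I (C (∑ m ∈ f.support.filter
        (fun m => monomial m (1 : K) - monomial m0 1 ∈ I), coeff m f)) *
        Ideal.Quotient.mk I (monomial m0 1) := by
      rw [map_sum, map_sum, Finset.sum_mul]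
      refine Finset.sum_congr ?_ fun m hm => ?_
      · ext m
        simp only [Finset.mem_filter, Ideal.Quotient.eq]
      · have := (Finset.mem_filter.1 hm).2
        rw [← Ideal.Quotient.eq] at this
        rw [this]
    rw [h2, h1, map_zero, map_zero, zero_mul]

/-- `(T, c)` is a cut set together with a labelling of the components. -/
structure CutLab (G : SimpleGraph V) (T : Set V) (c : V → L) : Prop where
  adj : ∀ i j, G.Adj i j → i ∉ T → j ∉ T → c i = c j
  cut : ∀ v ∈ T, ∃ i j, i ∉ T ∧ j ∉ T ∧ G.Adj i v ∧ G.Adj v j ∧ c i ≠ c j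

theorem exists_not_ker (G : SimpleGraph V) {T T' : Set V} {c : V → L} (hc : CutLab G T' c)
    (hne : T ≠ T') : ∃ p ∈ P K G T, phi K T' c p ≠ 0 := by
  by_cases hs : T ⊆ T'
  · have : ∃ v ∈ T', v ∉ T := by
      by_contra hcon
      push Not at hcon
      exact hne (Set.Subset.antisymm hs hcon)
    obtain ⟨v, hv, hvT⟩ := this
    obtain ⟨i, j, hi, hj, hiv, hvj, hij⟩ := hc.cut v hv
    refine ⟨minor K i j, ?_, phi_minor_ne T' c i j hi hj hij⟩
    refine Ideal.subset_span (Or.inr ⟨⟨i, fun h => hi (hs h)⟩, ⟨j, fun h => hj (hs h)⟩, ?_, rfl⟩)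
    have a1 : (G.induce Tᶜ).Adj ⟨i, fun h => hi (hs h)⟩ ⟨v, hvT⟩ := by
      simpa using hiv
    have a2 : (G.induce Tᶜ).Adj ⟨v, hvT⟩ ⟨j, fun h => hj (hs h)⟩ := by
      simpa using hvj
    exact a1.reachable.trans a2.reachable
  · obtain ⟨v, hv, hv'⟩ := Set.not_subset.1 hs
    exact ⟨X (v, false), Ideal.subset_span (Or.inl ⟨v, hv, Or.inl rfl⟩),
      phi_var_ne T' c v false hv'⟩

/-- the condition on a monomial which makes the coefficient sum over its class vanish -/
def Good (K : Type*) [Field K] {V : Type} (G : SimpleGraph V) (T : Set V)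
    (m0 : V × Bool →₀ ℕ) : Prop :=
  ∃ (T' : Set V) (L : Type) (c : V → L), T ≠ T' ∧ CutLab G T' c ∧ Av T' m0 ∧
    ∀ m, Av T' m → img c m = img c m0 → monomial m (1 : K) - monomial m0 1 ∈ J K G

theorem mem_J_of_good (G : SimpleGraph V) (T : Set V) (f : MvPolynomial (V × Bool) K)
    (hf : ∀ g ∈ P K G T, g * f ∈ J K G) (hg : ∀ m0 ∈ f.support, Good K G T m0) :
    f ∈ J K G := by
  classical
  refine mem_of_class_sums _ f fun m0 hm0 _ => ?_
  obtain ⟨T', L, c, hne, hc, hav, hcl⟩ := hg m0 hm0
  obtain ⟨p, hp, hp0⟩ := exists_not_ker (K := K) G hc hne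
  have h0 : phi K T' c f = 0 := by
    have h1 := J_le G T' c hc.adj (hf p hp)
    rw [map_mul] at h1
    exact (mul_eq_zero.1 h1).resolve_left hp0
  rw [← fiber_sum T' c f h0 (img c m0)]
  refine Finset.sum_congr ?_ fun _ _ => rfl
  ext m
  simp only [Finset.mem_filter, and_congr_right_iff]
  intro _
  constructor
  · intro h
    have h1 := J_le G T' c hc.adj h
    rw [map_sub, phi_monomial, phi_monomial, if_pos hav, sub_eq_zero] at h1
    by_cases ha : Av T' m
    · refine ⟨ha, ?_⟩
      rw [if_pos ha] at h1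
      rcases (monomial_eq_monomial_iff _ _ _ _).1 h1 with h2 | h2
      · exact h2.1
      · exact absurd h2.1 one_ne_zero
    · rw [if_neg ha] at h1
      exact absurd (monomial_eq_zero.1 h1.symm) one_ne_zero
  · rintro ⟨h1, h2⟩
    exact hcl m h1 h2

/-! ## Monomials of degree three -/

noncomputable def mon3 (p q r : V × Bool) : V × Bool →₀ ℕ :=
  Finsupp.single p 1 + Finsupp.single q 1 + Finsupp.single r 1

theorem mon3_comm12 (p q r : V × Bool) : mon3 p q r = mon3 q p r := by
  unfold mon3; abel

theorem mon3_comm23 (p q r : V × Bool) : mon3 p q r = mon3 p r q := by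
  unfold mon3; abel

theorem mon3_comm13 (p q r : V × Bool) : mon3 p q r = mon3 r q p := by
  unfold mon3; abel

theorem pull {m : V × Bool →₀ ℕ} {v : V} {d : V →₀ ℕ}
    (h : m.mapDomain Prod.fst = Finsupp.single v 1 + d) :
    ∃ b m', m = Finsupp.single (v, b) 1 + m' ∧ m'.mapDomain Prod.fst = d := by
  classical
  have h1 : v ∈ (m.mapDomain Prod.fst).support := by
    rw [h, Finsupp.mem_support_iff]
    simp
  obtain ⟨⟨w, b⟩, hp, hpv⟩ := Finset.mem_image.1 (Finsupp.mapDomain_support h1)
  simp only at hpv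
  subst hpv
  have h2 : Finsupp.single (w, b) 1 ≤ m := by
    rw [Finsupp.single_le_iff]
    have := Finsupp.mem_support_iff.1 hp
    omega
  refine ⟨b, m - Finsupp.single (w, b) 1, (add_tsub_cancel_of_le h2).symm, ?_⟩
  have h3 := congrArg (Finsupp.mapDomain Prod.fst) (add_tsub_cancel_of_le h2)
  rw [Finsupp.mapDomain_add, Finsupp.mapDomain_single, h] at h3
  exact add_left_cancel h3

theorem pull0 {m : V × Bool →₀ ℕ} (h : m.mapDomain Prod.fst = 0) : m = 0 := by
  classical
  by_contra hne
  obtain ⟨p, hp⟩ := Finsupp.support_nonempty_iff.2 hne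
  have h2 : Finsupp.single p 1 ≤ m := by
    rw [Finsupp.single_le_iff]
    have := Finsupp.mem_support_iff.1 hp
    omega
  have h3 := congrArg (Finsupp.mapDomain Prod.fst) (add_tsub_cancel_of_le h2)
  rw [Finsupp.mapDomain_add, Finsupp.mapDomain_single, h] at h3
  have h4 := DFunLike.congr_fun h3 p.1
  simp at h4

theorem mon3_of_img {c : V → L} {m : V × Bool →₀ ℕ} {p q r : V × Bool}
    (h : img c m = img c (mon3 p q r)) :
    ∃ b1 b2 b3, m = mon3 (p.1, b1) (q.1, b2) (r.1, b3) := by
  have h1 := vdeg_eq h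
  have h2 : (mon3 p q r).mapDomain Prod.fst =
      Finsupp.single p.1 1 + (Finsupp.single q.1 1 + (Finsupp.single r.1 1 + 0)) := by
    unfold mon3
    simp [Finsupp.mapDomain_add, Finsupp.mapDomain_single, add_assoc]
  rw [h2] at h1
  obtain ⟨b1, m1, rfl, h3⟩ := pull h1
  obtain ⟨b2, m2, rfl, h4⟩ := pull h3
  obtain ⟨b3, m3, rfl, h5⟩ := pull h4
  refine ⟨b1, b2, b3, ?_⟩
  rw [pull0 h5]
  unfold mon3
  abel

/-- counting the `y` over one label -/
theorem cnt [DecidableEq L] {c : V → L} {v1 v2 v3 : V} {b1 b2 b3 b1' b2' b3' : Bool}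
    (h : img c (mon3 (v1, b1') (v2, b2') (v3, b3')) = img c (mon3 (v1, b1) (v2, b2) (v3, b3)))
    (κ : L) :
    (if c v1 = κ ∧ b1' = true then 1 else 0) + (if c v2 = κ ∧ b2' = true then 1 else 0) +
      (if c v3 = κ ∧ b3' = true then 1 else 0) =
    (if c v1 = κ ∧ b1 = true then 1 else 0) + (if c v2 = κ ∧ b2 = true then 1 else 0) +
      (if c v3 = κ ∧ b3 = true then 1 else 0 : ℕ) := by
  have h1 := DFunLike.congr_fun (cdeg_eq h) (κ, true)
  simpa [mon3, Finsupp.mapDomain_add, Finsupp.mapDomain_single, Finsupp.single_apply,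
    Prod.ext_iff] using h1

theorem cnt_all {c : V → L} {v1 v2 v3 : V} {b1 b2 b3 b1' b2' b3' : Bool}
    (h : img c (mon3 (v1, b1') (v2, b2') (v3, b3')) = img c (mon3 (v1, b1) (v2, b2) (v3, b3))) :
    b1'.toNat + b2'.toNat + b3'.toNat = b1.toNat + b2.toNat + b3.toNat := by
  have h1 := congrArg (Finsupp.mapDomain Prod.snd) (cdeg_eq h)
  have h2 := DFunLike.congr_fun h1 true
  simp [mon3, Finsupp.mapDomain_add, Finsupp.mapDomain_single, Finsupp.single_apply] at h2
  cases b1 <;> cases b2 <;> cases b3 <;> cases b1' <;> cases b2' <;> cases b3' <;> simp_all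

def Rel (K : Type*) [Field K] {V : Type} (G : SimpleGraph V) (m m' : V × Bool →₀ ℕ) : Prop :=
  monomial m (1 : K) - monomial m' 1 ∈ J K G

theorem Rel.refl (G : SimpleGraph V) (m : V × Bool →₀ ℕ) : Rel K G m m := by
  unfold Rel; rw [sub_self]; exact Ideal.zero_mem _

theorem Rel.trans {G : SimpleGraph V} {m m' m'' : V × Bool →₀ ℕ} (h : Rel K G m m')
    (h' : Rel K G m' m'') : Rel K G m m'' := by
  unfold Rel at *
  have := Ideal.add_mem _ h h'
  rwa [sub_add_sub_cancel] at this

theorem Rel.symm {G : SimpleGraph V} {m m' : V × Bool →₀ ℕ} (h : Rel K G m m') :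
    Rel K G m' m := by
  unfold Rel at *
  have := (Ideal.neg_mem_iff _).2 h
  rwa [neg_sub] at this

theorem swap_gen {I : Ideal (MvPolynomial (V × Bool) K)} {v w : V} (h : minor K v w ∈ I)
    (b b' : Bool) (s : V × Bool →₀ ℕ) :
    monomial (Finsupp.single (v, b) 1 + Finsupp.single (w, b') 1 + s) (1 : K) -
      monomial (Finsupp.single (v, b') 1 + Finsupp.single (w, b) 1 + s) 1 ∈ I := by
  have e : ∀ a a' : Bool, monomial (Finsupp.single (v, a) 1 + Finsupp.single (w, a') 1 + s)
      (1 : K) = X (v, a) * X (w, a') * monomial s 1 := by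
    intro a a'
    unfold X
    simp [monomial_mul]
  rw [e, e]
  cases b <;> cases b'
  · simp
  · have := I.mul_mem_left (monomial s 1) h
    convert this using 1
    unfold minor
    ring
  · have := I.mul_mem_left (-monomial s 1) h
    convert this using 1
    unfold minor
    ring
  · simp

theorem swap {G : SimpleGraph V} {v w : V} (h : v = w ∨ G.Adj v w) (b b' : Bool)
    (s : V × Bool →₀ ℕ) :
    Rel K G (Finsupp.single (v, b) 1 + Finsupp.single (w, b') 1 + s)
      (Finsupp.single (v, b') 1 + Finsupp.single (w, b) 1 + s) := by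
  rcases h with rfl | h
  · rw [add_comm (Finsupp.single (v, b) 1)]
    exact Rel.refl _ _
  · have hm : minor K v w ∈ J K G := Ideal.subset_span ⟨v, w, h, rfl⟩
    exact swap_gen hm b b' s

theorem swap12 {G : SimpleGraph V} {v w : V} (h : v = w ∨ G.Adj v w) (b b' : Bool)
    (r : V × Bool) : Rel K G (mon3 (v, b) (w, b') r) (mon3 (v, b') (w, b) r) := by
  unfold mon3
  exact swap h b b' _

theorem swap23 {G : SimpleGraph V} {v w : V} (h : v = w ∨ G.Adj v w) (b b' : Bool)
    (r : V × Bool) : Rel K G (mon3 r (v, b) (w, b')) (mon3 r (v, b') (w, b)) := by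
  have e : ∀ p q : V × Bool, mon3 r p q = mon3 p q r := by
    intro p q
    unfold mon3
    abel
  rw [e, e]
  exact swap12 (K := K) h b b' r

theorem swap13 {G : SimpleGraph V} {v w : V} (h : v = w ∨ G.Adj v w) (b b' : Bool)
    (r : V × Bool) : Rel K G (mon3 (v, b) r (w, b')) (mon3 (v, b') r (w, b)) := by
  rw [mon3_comm23 _ r, mon3_comm23 _ r]
  exact swap12 (K := K) h b b' r

/-- all three vertices connected through the third one -/
theorem rel_path {G : SimpleGraph V} {v1 v2 v3 : V} (h1 : v1 = v3 ∨ G.Adj v1 v3)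
    (h2 : v2 = v3 ∨ G.Adj v2 v3) {b1 b2 b3 b1' b2' b3' : Bool}
    (h : b1'.toNat + b2'.toNat + b3'.toNat = b1.toNat + b2.toNat + b3.toNat) :
    Rel K G (mon3 (v1, b1') (v2, b2') (v3, b3')) (mon3 (v1, b1) (v2, b2) (v3, b3)) := by
  have s13 : ∀ x y z, Rel K G (mon3 (v1, x) (v2, y) (v3, z)) (mon3 (v1, z) (v2, y) (v3, x)) :=
    fun x y z => swap13 h1 x z _
  have s23 : ∀ x y z, Rel K G (mon3 (v1, x) (v2, y) (v3, z)) (mon3 (v1, x) (v2, z) (v3, y)) :=
    fun x y z => swap23 h2 y z _
  have canon : ∀ x y z : Bool, Rel K G (mon3 (v1, x) (v2, y) (v3, z))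
      (mon3 (v1, decide (2 ≤ x.toNat + y.toNat + z.toNat))
        (v2, decide (2 ≤ x.toNat + y.toNat + z.toNat))
        (v3, decide (x.toNat + y.toNat + z.toNat = 1 ∨ x.toNat + y.toNat + z.toNat = 3))) := by
    intro x y z
    cases x <;> cases y <;> cases z
    · exact Rel.refl _ _
    · exact Rel.refl _ _
    · exact s23 false true false
    · exact s13 false true true
    · exact s13 true false false
    · exact s23 true false true
    · exact Rel.refl _ _
    · exact Rel.refl _ _
  have c1 := canon b1' b2' b3'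
  have c2 := canon b1 b2 b3
  rw [h] at c1
  exact c1.trans c2.symm

/-- the first vertex is isolated, the other two are joined -/
theorem rel_edge {G : SimpleGraph V} {v1 v2 v3 : V}
    (h2 : v2 = v3 ∨ G.Adj v2 v3) {b1 b2 b3 b2' b3' : Bool}
    (h : b1.toNat + b2'.toNat + b3'.toNat = b1.toNat + b2.toNat + b3.toNat) :
    Rel K G (mon3 (v1, b1) (v2, b2') (v3, b3')) (mon3 (v1, b1) (v2, b2) (v3, b3)) := by
  have s23 : ∀ x y z, Rel K G (mon3 (v1, x) (v2, y) (v3, z)) (mon3 (v1, x) (v2, z) (v3, y)) :=
    fun x y z => swap23 h2 y z _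
  cases b1 <;> cases b2 <;> cases b3 <;> cases b2' <;> cases b3' <;>
  first
  | (exfalso; revert h; decide)
  | exact Rel.refl _ _
  | exact s23 _ _ _

/-! ## The kernel of the toric map -/

theorem lab_reach {G : SimpleGraph V} {T : Set V} {c : V → L}
    (hc : ∀ i j, G.Adj i j → i ∉ T → j ∉ T → c i = c j) {u w : (Tᶜ : Set V)}
    (h : (G.induce Tᶜ).Reachable u w) : c u.1 = c w.1 := by
  obtain ⟨p⟩ := h
  induction p with
  | nil => rfl
  | @cons a b _ hadj _ ih =>
    exact (hc a.1 b.1 (by simpa using hadj) a.2 b.2).trans ih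

theorem P_le {G : SimpleGraph V} {T : Set V} {c : V → L}
    (hc : ∀ i j, G.Adj i j → i ∉ T → j ∉ T → c i = c j) {f : MvPolynomial (V × Bool) K}
    (hf : f ∈ P K G T) : phi K T c f = 0 := by
  have : P K G T ≤ RingHom.ker (phi K T c) := by
    unfold P
    rw [Ideal.span_le]
    rintro p (⟨i, hi, rfl | rfl⟩ | ⟨i, j, hij, rfl⟩)
    · simp [RingHom.mem_ker, phi, hi]
    · simp [RingHom.mem_ker, phi, hi]
    · exact phi_minor T c _ _ fun _ _ => lab_reach hc hij
  exact this hf

theorem toric_conn {G : SimpleGraph V} {T : Set V} {c : V → L}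
    (hsep : ∀ i j (hi : i ∉ T) (hj : j ∉ T), c i = c j →
      (G.induce Tᶜ).Reachable ⟨i, hi⟩ ⟨j, hj⟩) (k : ℕ) :
    ∀ m m' : V × Bool →₀ ℕ, m.degree = k → Av T m → Av T m' → img c m = img c m' →
      monomial m (1 : K) - monomial m' 1 ∈ P K G T := by
  classical
  induction k with
  | zero =>
    intro m m' hk _ _ himg
    rw [Finsupp.degree_eq_zero_iff] at hk
    subst hk
    have h1 := vdeg_eq himg
    rw [Finsupp.mapDomain_zero] at h1
    rw [pull0 h1.symm, sub_self]
    exact Ideal.zero_mem _
  | succ k ih =>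
    intro m m' hk hav hav' himg
    have hne : m ≠ 0 := by rintro rfl; simp at hk
    obtain ⟨⟨v, b⟩, hp⟩ := Finsupp.support_nonempty_iff.2 hne
    have h2 : Finsupp.single (v, b) 1 ≤ m := by
      rw [Finsupp.single_le_iff]
      have := Finsupp.mem_support_iff.1 hp
      omega
    obtain ⟨n, rfl⟩ : ∃ n, m = Finsupp.single (v, b) 1 + n :=
      ⟨m - Finsupp.single (v, b) 1, (add_tsub_cancel_of_le h2).symm⟩
    have hnk : n.degree = k := by
      rw [map_add, Finsupp.degree_single] at hk
      omega
    have hvT : v ∉ T := by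
      intro hvT
      exact (Finsupp.mem_support_iff.1 hp) (hav _ hvT)
    have hd := vdeg_eq himg
    rw [Finsupp.mapDomain_add, Finsupp.mapDomain_single] at hd
    obtain ⟨b0, n', rfl, hn'⟩ := pull hd.symm
    have main : ∀ n'', Av T n'' → img c n = img c n'' →
        monomial (Finsupp.single (v, b) 1 + n) (1 : K) -
          monomial (Finsupp.single (v, b) 1 + n'') 1 ∈ P K G T := by
      intro n'' h1 h2
      have h3 := Ideal.mul_mem_left _ (X (v, b)) (ih n n'' hnk (av_add.1 hav).2 h1 h2)
      have e : ∀ q : V × Bool →₀ ℕ, X (v, b) * monomial q (1 : K) =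
          monomial (Finsupp.single (v, b) 1 + q) 1 := by
        intro q
        unfold X
        simp [monomial_mul]
      rwa [mul_sub, e, e] at h3
    by_cases hb : b0 = b
    · subst hb
      refine main n' (av_add.1 hav').2 ?_
      rw [img_add, img_add] at himg
      exact add_left_cancel himg
    · have hc := DFunLike.congr_fun (cdeg_eq himg) (c v, b)
      rw [Finsupp.mapDomain_add, Finsupp.mapDomain_add, Finsupp.mapDomain_single,
        Finsupp.mapDomain_single, Finsupp.add_apply, Finsupp.add_apply] at hc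
      simp only [Finsupp.single_eq_same] at hc
      have hz : (Finsupp.single (c v, b0) 1 : L × Bool →₀ ℕ) (c v, b) = 0 := by
        rw [Finsupp.single_apply, if_neg]
        simpa using hb
      rw [hz, zero_add] at hc
      have h3 : (c v, b) ∈ (n'.mapDomain (fun p => (c p.1, p.2))).support := by
        rw [Finsupp.mem_support_iff, ← hc]
        omega
      obtain ⟨⟨w, b'⟩, hw, hwe⟩ := Finset.mem_image.1 (Finsupp.mapDomain_support h3)
      simp only [Prod.mk.injEq] at hwe
      obtain ⟨hcw, rfl⟩ := hwe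
      have h4 : Finsupp.single (w, b') 1 ≤ n' := by
        rw [Finsupp.single_le_iff]
        have := Finsupp.mem_support_iff.1 hw
        omega
      obtain ⟨s, rfl⟩ : ∃ s, n' = Finsupp.single (w, b') 1 + s :=
        ⟨n' - Finsupp.single (w, b') 1, (add_tsub_cancel_of_le h4).symm⟩
      have hwT : w ∉ T := by
        intro hwT
        exact (Finsupp.mem_support_iff.1 hw) ((av_add.1 hav').2 _ hwT)
      have hmin : minor K v w ∈ P K G T :=
        Ideal.subset_span (Or.inr ⟨⟨v, hvT⟩, ⟨w, hwT⟩, hsep v w hvT hwT hcw.symm, rfl⟩)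
      have hsw := swap_gen hmin b' b0 s
      have himg2 : img c n = img c (Finsupp.single (w, b0) 1 + s) := by
        have h5 : img c (Finsupp.single (v, b') 1 + n) =
            img c (Finsupp.single (v, b') 1 + (Finsupp.single (w, b0) 1 + s)) := by
          rw [himg]
          simp only [img_add, img_single, hcw]
          abel
        rw [img_add, img_add] at h5
        exact add_left_cancel h5
      have hav2 : Av T (Finsupp.single (w, b0) 1 + s) := by
        refine av_add.2 ⟨?_, (av_add.1 (av_add.1 hav').2).2⟩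
        intro q hq
        rw [Finsupp.single_apply, if_neg]
        rintro rfl
        exact hwT hq
      have h6 := Ideal.add_mem _ (main _ hav2 himg2) (show _ ∈ P K G T from hsw)
      rw [← add_assoc, sub_add_sub_cancel] at h6
      rwa [← add_assoc]

theorem ker_le {G : SimpleGraph V} {T : Set V} {c : V → L}
    (hc : ∀ i j, G.Adj i j → i ∉ T → j ∉ T → c i = c j)
    (hsep : ∀ i j (hi : i ∉ T) (hj : j ∉ T), c i = c j →
      (G.induce Tᶜ).Reachable ⟨i, hi⟩ ⟨j, hj⟩)
    {f : MvPolynomial (V × Bool) K} (hf : phi K T c f = 0) : f ∈ P K G T := by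
  classical
  refine mem_of_class_sums _ f fun m0 hm0 hm1 => ?_
  have hav : Av T m0 := by
    intro p hp
    by_contra h0
    apply hm1
    have h2 : Finsupp.single p 1 ≤ m0 := by
      rw [Finsupp.single_le_iff]
      omega
    obtain ⟨s, rfl⟩ : ∃ s, m0 = Finsupp.single p 1 + s :=
      ⟨m0 - Finsupp.single p 1, (add_tsub_cancel_of_le h2).symm⟩
    have e : monomial (Finsupp.single p 1 + s) (1 : K) = monomial s 1 * X p := by
      unfold X
      simp [monomial_mul, add_comm]
    rw [e]
    refine Ideal.mul_mem_left _ _ (Ideal.subset_span (Or.inl ⟨p.1, hp, ?_⟩))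
    obtain ⟨v, b⟩ := p
    cases b
    · exact Or.inl rfl
    · exact Or.inr rfl
  rw [← fiber_sum T c f hf (img c m0)]
  refine Finset.sum_congr ?_ fun _ _ => rfl
  ext m
  simp only [Finset.mem_filter, and_congr_right_iff]
  intro _
  constructor
  · intro h
    have h1 := P_le hc h
    rw [map_sub, phi_monomial, phi_monomial, if_pos hav, sub_eq_zero] at h1
    by_cases ha : Av T m
    · refine ⟨ha, ?_⟩
      rw [if_pos ha] at h1
      rcases (monomial_eq_monomial_iff _ _ _ _).1 h1 with h2 | h2
      · exact h2.1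
      · exact absurd h2.1 one_ne_zero
    · rw [if_neg ha] at h1
      exact absurd (monomial_eq_zero.1 h1.symm) one_ne_zero
  · rintro ⟨h1, h2⟩
    exact toric_conn hsep _ m m0 rfl h1 hav h2

theorem colon_eq {G : SimpleGraph V} {T : Set V} {c : V → L}
    (hc : ∀ i j, G.Adj i j → i ∉ T → j ∉ T → c i = c j)
    (hsep : ∀ i j (hi : i ∉ T) (hj : j ∉ T), c i = c j →
      (G.induce Tᶜ).Reachable ⟨i, hi⟩ ⟨j, hj⟩)
    (f : MvPolynomial (V × Bool) K) (h0 : phi K T c f ≠ 0)
    (hvar : ∀ v ∈ T, ∀ b, X (v, b) * f ∈ J K G)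
    (hmin : ∀ i j, i ∉ T → j ∉ T → c i = c j → minor K i j * f ∈ J K G) :
    ∀ g, g ∈ P K G T ↔ g * f ∈ J K G := by
  intro g
  constructor
  · intro hg
    unfold P at hg
    induction hg using Submodule.span_induction with
    | mem x hx =>
      rcases hx with ⟨i, hi, rfl | rfl⟩ | ⟨i, j, hij, rfl⟩
      · exact hvar i hi _
      · exact hvar i hi _
      · exact hmin _ _ i.2 j.2 (lab_reach hc hij)
    | zero => rw [zero_mul]; exact Ideal.zero_mem _
    | add x y _ _ hx hy => rw [add_mul]; exact Ideal.add_mem _ hx hy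
    | smul a x _ hx => rw [smul_eq_mul, mul_assoc]; exact Ideal.mul_mem_left _ _ hx
  · intro hg
    have h1 := J_le G T c hc hg
    rw [map_mul] at h1
    exact ker_le hc hsep ((mul_eq_zero.1 h1).resolve_right h0)

/-! ## The Plücker relation -/

theorem minor_self (v : V) : minor K v v = 0 := by unfold minor; ring

theorem minor_comm (v w : V) : minor K v w = -minor K w v := by unfold minor; ring

theorem minor_mem {G : SimpleGraph V} {v w : V} (h : G.Adj v w) : minor K v w ∈ J K G :=
  Ideal.subset_span ⟨v, w, h, rfl⟩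

theorem pluck (u v w : V) (b : Bool) :
    X (u, b) * minor K v w = X (v, b) * minor K u w - X (w, b) * minor K u v := by
  unfold minor
  cases b <;> ring

/-- if `u` is adjacent to `v` and `w`, the variables at `u` kill the minor of `v`, `w` -/
theorem pluck_mem {G : SimpleGraph V} {u v w : V} (h1 : G.Adj u v) (h2 : G.Adj u w) (b : Bool) :
    X (u, b) * minor K v w ∈ J K G := by
  rw [pluck]
  exact Ideal.sub_mem _ (Ideal.mul_mem_left _ _ (minor_mem h2))
    (Ideal.mul_mem_left _ _ (minor_mem h1))

theorem pluck_mul {G : SimpleGraph V} {u v w : V} (s : MvPolynomial (V × Bool) K)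
    (h1 : s * minor K u v ∈ J K G) (h2 : s * minor K u w ∈ J K G) (b : Bool) :
    (s * X (u, b)) * minor K v w ∈ J K G := by
  have e : (s * X (u, b)) * minor K v w =
      X (v, b) * (s * minor K u w) - X (w, b) * (s * minor K u v) := by
    rw [mul_assoc, pluck]
    ring
  rw [e]
  exact Ideal.sub_mem _ (Ideal.mul_mem_left _ _ h2) (Ideal.mul_mem_left _ _ h1)

/-! ## Cut sets -/

theorem cutprop [Finite V] {G : SimpleGraph V} {T : Set V} (hT : IsCut G T) {v : V}
    (hv : v ∈ T) : ∃ i j, ∃ (hi : i ∉ T) (hj : j ∉ T), G.Adj i v ∧ G.Adj j v ∧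
      ¬ (G.induce Tᶜ).Reachable ⟨i, hi⟩ ⟨j, hj⟩ := by
  classical
  rcases hT with rfl | hT
  · exact absurd hv (Set.notMem_empty _)
  by_contra hcon
  push Not at hcon
  have hlt := hT v hv
  refine absurd hlt (not_lt.2 ?_)
  unfold comps
  have hsub : ∀ x : (Tᶜ : Set V), x.1 ∈ ((T \ {v})ᶜ : Set V) := fun x h => x.2 h.1
  let φ : G.induce Tᶜ →g G.induce (T \ {v})ᶜ :=
    ⟨fun x => ⟨x.1, hsub x⟩, fun {a b} h => by simpa using h⟩
  let F : ((T \ {v})ᶜ : Set V) → Option (G.induce Tᶜ).ConnectedComponent := fun x =>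
    if h : x.1 ∉ T then some ((G.induce Tᶜ).connectedComponentMk ⟨x.1, h⟩)
    else if h' : ∃ i, ∃ _ : i ∉ T, G.Adj i v then
      some ((G.induce Tᶜ).connectedComponentMk ⟨h'.choose, h'.choose_spec.choose⟩) else none
  have hF : ∀ x y, (G.induce (T \ {v})ᶜ).Adj x y → F x = F y := by
    have h1 : ∀ x y, (G.induce (T \ {v})ᶜ).Adj x y → x.1 ∉ T → F x = F y := by
      intro x y hxy hx
      have hxy' : G.Adj x.1 y.1 := by simpa using hxy
      by_cases hy : y.1 ∉ T
      · simp only [F, hx, hy, not_false_eq_true, dif_pos]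
        congr 1
        rw [SimpleGraph.ConnectedComponent.eq]
        refine SimpleGraph.Adj.reachable ?_
        simpa using hxy'
      · have hyv : y.1 = v := by
          by_contra hne
          exact y.2 ⟨not_not.1 hy, hne⟩
        have hxv : G.Adj x.1 v := by
          rw [hyv] at hxy'
          exact hxy'
        have h' : ∃ i, ∃ _ : i ∉ T, G.Adj i v := ⟨x.1, hx, hxv⟩
        have e1 : F x = some ((G.induce Tᶜ).connectedComponentMk ⟨x.1, hx⟩) := by
          simp only [F]
          rw [dif_pos hx]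
        have e2 : F y = some ((G.induce Tᶜ).connectedComponentMk
            ⟨h'.choose, h'.choose_spec.choose⟩) := by
          simp only [F]
          rw [dif_neg hy, dif_pos h']
        rw [e1, e2]
        congr 1
        rw [SimpleGraph.ConnectedComponent.eq]
        exact hcon _ _ hx h'.choose_spec.choose hxv h'.choose_spec.choose_spec
    intro x y hxy
    by_cases hx : x.1 ∉ T
    · exact h1 x y hxy hx
    · by_cases hy : y.1 ∉ T
      · exact (h1 y x hxy.symm hy).symm
      · exfalso
        have hxv : x.1 = v := by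
          by_contra hne
          exact x.2 ⟨not_not.1 hx, hne⟩
        have hyv : y.1 = v := by
          by_contra hne
          exact y.2 ⟨not_not.1 hy, hne⟩
        have hxy' : G.Adj x.1 y.1 := by simpa using hxy
        rw [hxv, hyv] at hxy'
        exact G.loopless.irrefl _ hxy'
  have hF' : ∀ x y, (G.induce (T \ {v})ᶜ).Reachable x y → F x = F y := by
    rintro x y ⟨p⟩
    induction p with
    | nil => rfl
    | cons h _ ih => exact (hF _ _ h).trans ih
  refine Nat.card_le_card_of_injective (SimpleGraph.ConnectedComponent.map φ) ?_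
  intro a b
  induction a using SimpleGraph.ConnectedComponent.ind with
  | _ x =>
  induction b using SimpleGraph.ConnectedComponent.ind with
  | _ y =>
  intro hxy
  rw [SimpleGraph.ConnectedComponent.map_mk, SimpleGraph.ConnectedComponent.map_mk,
    SimpleGraph.ConnectedComponent.eq] at hxy
  have h2 := hF' _ _ hxy
  have e : ∀ z : (Tᶜ : Set V), F (φ z) = some ((G.induce Tᶜ).connectedComponentMk z) := by
    intro z
    have hz : z.1 ∉ T := z.2
    simp only [F, φ]
    exact dif_pos hz
  rw [e, e] at h2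
  exact Option.some_injective _ h2

end engine

/-! ## The crown graph -/

section crown

variable {K : Type*} [Field K] {n : ℕ}

theorem exists_notMem (s : Finset (Fin n)) (h : s.card < n) : ∃ p, p ∉ s := by
  by_contra hcon
  push Not at hcon
  have : s = Finset.univ := Finset.eq_univ_of_forall hcon
  rw [this, Finset.card_univ, Fintype.card_fin] at h
  exact lt_irrefl _ h

theorem one_other (hn : 3 ≤ n) (a b : Fin n) : ∃ p, p ≠ a ∧ p ≠ b := by
  obtain ⟨p, hp⟩ := exists_notMem ({a, b} : Finset (Fin n))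
    (lt_of_le_of_lt Finset.card_le_two (by omega))
  simp only [Finset.mem_insert, Finset.mem_singleton, not_or] at hp
  exact ⟨p, hp⟩

theorem two_others (hn : 3 ≤ n) (a : Fin n) : ∃ p q, p ≠ q ∧ p ≠ a ∧ q ≠ a := by
  obtain ⟨p, hp, _⟩ := one_other hn a a
  obtain ⟨q, hq, hq'⟩ := one_other hn a p
  exact ⟨p, q, hq'.symm, hp, hq⟩

def F1 (n : ℕ) (τ : Bool) : Set (Fin n × Bool) := {v | v.2 = τ}
def F2 (τ : Bool) (k : Fin n) : Set (Fin n × Bool) := {v | v.2 = τ ∧ v.1 ≠ k}
def F3 (k l : Fin n) : Set (Fin n × Bool) := {v | v.1 ≠ k ∧ v.1 ≠ l}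

theorem lab0 : CutLab (crown n) ∅ (fun _ => ()) where
  adj := fun _ _ _ _ _ => rfl
  cut := fun _ h => absurd h (Set.notMem_empty _)

theorem lab1 (hn : 3 ≤ n) (τ : Bool) : CutLab (crown n) (F1 n τ) (id : Fin n × Bool → _) where
  adj := by
    rintro ⟨i, a⟩ ⟨j, b⟩ h hi hj
    exfalso
    simp only [F1, crown, Set.mem_ofPred_eq] at *
    revert h hi hj
    cases a <;> cases b <;> cases τ <;> simp
  cut := by
    rintro ⟨a, τ'⟩ ha
    simp only [F1, Set.mem_ofPred_eq] at ha
    subst ha
    obtain ⟨p, q, hpq, hp, hq⟩ := two_others hn a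
    refine ⟨(p, !τ'), (q, !τ'), ?_, ?_, ?_, ?_, ?_⟩
    · simp [F1]
    · simp [F1]
    · exact ⟨hp, by simp⟩
    · exact ⟨hq.symm, by simp⟩
    · simpa using hpq

theorem lab2 (hn : 3 ≤ n) (τ : Bool) (k : Fin n) :
    CutLab (crown n) (F2 τ k) (fun v => decide (v = (k, !τ))) where
  adj := by
    rintro ⟨i, a⟩ ⟨j, b⟩ h hi hj
    simp only [F2, crown, Set.mem_ofPred_eq, Prod.mk.injEq, not_and, not_not,
      decide_eq_decide, ne_eq] at *
    revert h hi hj
    cases a <;> cases b <;> cases τ <;> simp <;> grind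
  cut := by
    rintro ⟨a, τ'⟩ ha
    simp only [F2, Set.mem_ofPred_eq] at ha
    obtain ⟨rfl, hak⟩ := ha
    obtain ⟨p, hp, hpk⟩ := one_other hn a k
    refine ⟨(k, !τ'), (p, !τ'), ?_, ?_, ?_, ?_, ?_⟩
    · simp [F2]
    · simp [F2]
    · exact ⟨hak.symm, by simp⟩
    · exact ⟨hp.symm, by simp⟩
    · simp [hpk]

theorem lab3 {k l : Fin n} (hkl : k ≠ l) :
    CutLab (crown n) (F3 k l) (fun v => decide (v = (k, false) ∨ v = (l, true))) where
  adj := by
    rintro ⟨i, a⟩ ⟨j, b⟩ h hi hj
    simp only [F3, crown, Set.mem_ofPred_eq, Prod.mk.injEq, not_and, not_not,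
      decide_eq_decide, ne_eq] at *
    revert h hi hj
    cases a <;> cases b <;> simp <;> grind
  cut := by
    rintro ⟨a, τ⟩ ha
    simp only [F3, Set.mem_ofPred_eq] at ha
    obtain ⟨hak, hal⟩ := ha
    refine ⟨(k, !τ), (l, !τ), ?_, ?_, ?_, ?_, ?_⟩
    · simp [F3]
    · simp [F3]
    · exact ⟨Ne.symm hak, by simp⟩
    · exact ⟨hal, by simp⟩
    · cases τ <;> simp [hkl, hkl.symm]

theorem av_mon3 {V : Type} {T : Set V} {p q r : V × Bool} (hp : p.1 ∉ T) (hq : q.1 ∉ T)
    (hr : r.1 ∉ T) : Av T (mon3 p q r) := by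
  intro s hs
  have h1 : p ≠ s := by rintro rfl; exact hp hs
  have h2 : q ≠ s := by rintro rfl; exact hq hs
  have h3 : r ≠ s := by rintro rfl; exact hr hs
  simp [mon3, h1, h2, h3]

theorem good_same_aux (hn : 3 ≤ n) (σ : Bool) (i j k : Fin n) (b1 b : Bool) :
    Good K (crown n) (F1 n (!σ)) (mon3 ((i, σ), b1) ((j, σ), b) ((k, σ), b)) := by
  refine ⟨F2 (!σ) i, Bool, _, ?_, lab2 hn _ _, av_mon3 ?_ ?_ ?_, ?_⟩
  · intro h
    have : ((i, !σ) : Fin n × Bool) ∈ F1 n (!σ) := by simp [F1]
    rw [h] at this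
    simp [F2] at this
  · simp [F2]
  · simp [F2]
  · simp [F2]
  · intro m _ himg
    obtain ⟨b1', b2', b3', rfl⟩ := mon3_of_img himg
    have c0 := cnt_all himg
    have c1 := cnt himg true
    have c2 := cnt himg false
    simp only [Bool.not_not, Prod.mk.injEq, and_true, decide_eq_true_eq, true_and,
      decide_eq_false_iff_not, false_and, if_false, decide_true,
      Bool.true_eq_false] at c1 c2
    change Rel K (crown n) _ _
    by_cases hj : j = i <;> by_cases hk : k = i
    · subst hj; subst hk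
      exact rel_path (Or.inl rfl) (Or.inl rfl) c0
    · subst hj
      simp only [hk, true_and, false_and, if_false, add_zero, not_true_eq_false,
        not_false_eq_true, zero_add] at c1 c2
      have hb : b3' = b := by
        revert c2
        cases b3' <;> cases b <;> simp
      subst hb
      rw [mon3_comm13, mon3_comm13 ((j, σ), b1)]
      refine rel_edge (Or.inl rfl) ?_
      omega
    · subst hk
      simp only [hj, true_and, false_and, if_false, add_zero, not_true_eq_false,
        not_false_eq_true, zero_add] at c1 c2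
      have hb : b2' = b := by
        revert c2
        cases b2' <;> cases b <;> simp
      subst hb
      rw [mon3_comm12, mon3_comm12 ((k, σ), b1)]
      refine rel_edge (Or.inl rfl) ?_
      omega
    · simp only [hk, hj, true_and, false_and, if_false, add_zero,
        not_false_eq_true, zero_add] at c1 c2
      have hb : b1' = b1 := by
        revert c1
        cases b1' <;> cases b1 <;> simp
      subst hb
      have hb2 : b2' = b ∧ b3' = b := by
        revert c0
        cases b1' <;> cases b <;> cases b2' <;> cases b3' <;> simp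
      rw [hb2.1, hb2.2]
      exact Rel.refl _ _

theorem good_same (hn : 3 ≤ n) (T : Set (Fin n × Bool)) (σ : Bool) (i j k : Fin n)
    (b1 b2 b3 : Bool) : Good K (crown n) T (mon3 ((i, σ), b1) ((j, σ), b2) ((k, σ), b3)) := by
  by_cases hT : T = F1 n (!σ)
  · subst hT
    have : b2 = b3 ∨ b1 = b3 ∨ b1 = b2 := by
      cases b1 <;> cases b2 <;> cases b3 <;> simp
    rcases this with rfl | rfl | rfl
    · exact good_same_aux hn σ i j k b1 b2
    · rw [mon3_comm12]
      exact good_same_aux hn σ j i k b2 b1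
    · rw [mon3_comm13]
      exact good_same_aux hn σ k j i b3 b1
  · refine ⟨F1 n (!σ), _, id, hT, lab1 hn _, av_mon3 ?_ ?_ ?_, ?_⟩
    · simp [F1]
    · simp [F1]
    · simp [F1]
    · intro m _ himg
      have h := cdeg_eq himg
      have e : ∀ m : (Fin n × Bool) × Bool →₀ ℕ,
          m.mapDomain (fun p => (id p.1, p.2)) = m := fun m => Finsupp.mapDomain_id
      rw [e, e] at h
      rw [h]
      exact Rel.refl _ _

theorem good_mixed (hn : 3 ≤ n) (T : Set (Fin n × Bool)) (σ : Bool) (i j k : Fin n)
    (b1 b2 b3 : Bool) : Good K (crown n) T (mon3 ((i, σ), b1) ((j, σ), b2) ((k, !σ), b3)) := by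
  wlog hij : k = i ∨ k ≠ j generalizing i j b1 b2 with H
  · push Not at hij
    rw [mon3_comm12]
    exact H j i b2 b1 (Or.inl hij.2)
  by_cases hki : k = i
  · subst hki
    by_cases hjk : j = k
    · subst hjk
      by_cases hT : T = F2 (!σ) j
      · refine ⟨F2 σ j, Bool, _, ?_, lab2 hn _ _, av_mon3 ?_ ?_ ?_, ?_⟩
        · intro h
          rw [hT] at h
          obtain ⟨p, hp, _⟩ := one_other hn j j
          have : ((p, !σ) : Fin n × Bool) ∈ F2 (!σ) j := by simp [F2, hp]
          rw [h] at this
          simp [F2] at this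
        · simp [F2]
        · simp [F2]
        · simp [F2]
        · intro m _ himg
          obtain ⟨b1', b2', b3', rfl⟩ := mon3_of_img himg
          have c0 := cnt_all himg
          have c1 := cnt himg true
          simp only [Prod.mk.injEq, true_and] at c1
          have hb : b3' = b3 := by
            revert c1
            cases σ <;> cases b3' <;> cases b3 <;> simp
          subst hb
          change Rel K (crown n) _ _
          rw [mon3_comm13, mon3_comm13 ((j, σ), b1)]
          refine rel_edge (Or.inl rfl) ?_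
          omega
      · refine ⟨F2 (!σ) j, Bool, _, hT, lab2 hn _ _, av_mon3 ?_ ?_ ?_, ?_⟩
        · simp [F2]
        · simp [F2]
        · simp [F2]
        · intro m _ himg
          obtain ⟨b1', b2', b3', rfl⟩ := mon3_of_img himg
          have c0 := cnt_all himg
          have c1 := cnt himg false
          simp only [Prod.mk.injEq, true_and] at c1
          have hb : b3' = b3 := by
            revert c1
            cases σ <;> cases b3' <;> cases b3 <;> simp
          subst hb
          change Rel K (crown n) _ _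
          rw [mon3_comm13, mon3_comm13 ((j, σ), b1)]
          refine rel_edge (Or.inl rfl) ?_
          omega
    · by_cases hT : T = F2 (!σ) k
      · refine ⟨F3 k j, Bool, _, ?_, lab3 (Ne.symm hjk), av_mon3 ?_ ?_ ?_, ?_⟩
        · intro h
          rw [hT] at h
          have : ((j, !σ) : Fin n × Bool) ∈ F2 (!σ) k := by simp [F2, hjk]
          rw [h] at this
          simp [F3] at this
        · simp [F3]
        · simp [F3]
        · simp [F3]
        · intro m _ himg
          obtain ⟨b1', b2', b3', rfl⟩ := mon3_of_img himg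
          have c0 := cnt_all himg
          have c1 := cnt himg true
          have c2 := cnt himg false
          simp only [Prod.mk.injEq] at c1 c2
          have hb : b1' = b1 := by
            revert c1 c2
            cases σ <;> cases b1' <;> cases b1 <;> simp [hjk, Ne.symm hjk]
          subst hb
          have a : (crown n).Adj (j, σ) (k, !σ) := ⟨hjk, by simp⟩
          exact rel_edge (Or.inr a) c0
      · refine ⟨F2 (!σ) k, Bool, _, hT, lab2 hn _ _, av_mon3 ?_ ?_ ?_, ?_⟩
        · simp [F2]
        · simp [F2]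
        · simp [F2]
        · intro m _ himg
          obtain ⟨b1', b2', b3', rfl⟩ := mon3_of_img himg
          have c0 := cnt_all himg
          have c1 := cnt himg true
          simp only [Prod.mk.injEq] at c1
          have hb : b1' = b1 := by
            revert c1
            cases σ <;> cases b1' <;> cases b1 <;> simp [hjk]
          subst hb
          have a : (crown n).Adj (j, σ) (k, !σ) := ⟨hjk, by simp⟩
          exact rel_edge (Or.inr a) c0
  · have hkj := hij.resolve_left hki
    have a1 : (crown n).Adj (i, σ) (k, !σ) := ⟨Ne.symm hki, by simp⟩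
    have a2 : (crown n).Adj (j, σ) (k, !σ) := ⟨Ne.symm hkj, by simp⟩
    by_cases hT : T = ∅
    · refine ⟨F2 (!σ) k, Bool, _, ?_, lab2 hn _ _, av_mon3 ?_ ?_ ?_, ?_⟩
      · intro h
        have : ((i, !σ) : Fin n × Bool) ∈ F2 (!σ) k := by simp [F2, Ne.symm hki]
        rw [← h, hT] at this
        exact this
      · simp [F2]
      · simp [F2]
      · simp [F2]
      · intro m _ himg
        obtain ⟨b1', b2', b3', rfl⟩ := mon3_of_img himg
        exact rel_path (Or.inr a1) (Or.inr a2) (cnt_all himg)
    · refine ⟨∅, Unit, _, hT, lab0, av_mon3 ?_ ?_ ?_, ?_⟩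
      · exact Set.notMem_empty _
      · exact Set.notMem_empty _
      · exact Set.notMem_empty _
      · intro m _ himg
        obtain ⟨b1', b2', b3', rfl⟩ := mon3_of_img himg
        exact rel_path (Or.inr a1) (Or.inr a2) (cnt_all himg)

theorem good_all (hn : 3 ≤ n) (T : Set (Fin n × Bool)) (p q r : (Fin n × Bool) × Bool) :
    Good K (crown n) T (mon3 p q r) := by
  obtain ⟨⟨i, a⟩, b1⟩ := p
  obtain ⟨⟨j, b⟩, b2⟩ := q
  obtain ⟨⟨k, c⟩, b3⟩ := r
  by_cases h1 : a = b
  · subst h1
    by_cases h2 : c = a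
    · subst h2
      exact good_same hn T c i j k b1 b2 b3
    · have : c = !a := by revert h2; cases c <;> cases a <;> simp
      subst this
      exact good_mixed hn T a i j k b1 b2 b3
  · have hb : b = !a := by revert h1; cases b <;> cases a <;> simp
    subst hb
    by_cases h2 : c = a
    · subst h2
      rw [mon3_comm23]
      exact good_mixed hn T c i k j b1 b3 b2
    · have : c = !a := by revert h2; cases c <;> cases a <;> simp
      subst this
      rw [mon3_comm13]
      have := good_mixed (K := K) hn T (!a) k j i b3 b2 b1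
      rwa [Bool.not_not] at this

theorem eq_mon3 {V : Type} {m : V × Bool →₀ ℕ} (h : m.degree = 3) :
    ∃ p q r, m = mon3 p q r := by
  classical
  have step : ∀ (m : V × Bool →₀ ℕ) (k : ℕ), m.degree = k + 1 →
      ∃ p m', m = Finsupp.single p 1 + m' ∧ m'.degree = k := by
    intro m k hm
    have hne : m ≠ 0 := by rintro rfl; simp at hm
    obtain ⟨p, hp⟩ := Finsupp.support_nonempty_iff.2 hne
    have h2 : Finsupp.single p 1 ≤ m := by
      rw [Finsupp.single_le_iff]
      have := Finsupp.mem_support_iff.1 hp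
      omega
    refine ⟨p, m - Finsupp.single p 1, (add_tsub_cancel_of_le h2).symm, ?_⟩
    have h3 := congrArg Finsupp.degree (add_tsub_cancel_of_le h2)
    rw [map_add, hm, Finsupp.degree_single] at h3
    omega
  obtain ⟨p, m1, rfl, h1⟩ := step m 2 h
  obtain ⟨q, m2, rfl, h2⟩ := step m1 1 h1
  obtain ⟨r, m3, rfl, h3⟩ := step m2 0 h2
  refine ⟨p, q, r, ?_⟩
  rw [Finsupp.degree_eq_zero_iff] at h3
  rw [h3]
  unfold mon3
  abel

theorem lower (hn : 3 ≤ n) (T : Set (Fin n × Bool))
    (f : MvPolynomial ((Fin n × Bool) × Bool) K) (hf3 : f.IsHomogeneous 3)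
    (hf : ∀ g ∈ P K (crown n) T, g * f ∈ J K (crown n)) : f ∈ J K (crown n) := by
  refine mem_J_of_good _ T f hf fun m hm => ?_
  have h3 : m.degree = 3 := by
    rw [Finsupp.degree_eq_weight_one]
    exact hf3 (mem_support_iff.1 hm)
  obtain ⟨p, q, r, rfl⟩ := eq_mon3 h3
  exact good_all hn T p q r

theorem notside {a b : Bool} (h : a ≠ b) : a = !b := by revert h; cases a <;> cases b <;> simp

theorem reach_adj {T : Set (Fin n × Bool)} {u v : Fin n × Bool} (hu : u ∉ T) (hv : v ∉ T)
    (h : (crown n).Adj u v) : ((crown n).induce Tᶜ).Reachable ⟨u, hu⟩ ⟨v, hv⟩ := by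
  refine SimpleGraph.Adj.reachable ?_
  simpa using h

theorem classify (T : Set (Fin n × Bool)) (hT : IsCut (crown n) T) :
    T = ∅ ∨ (∃ τ, T = F1 n τ) ∨ (∃ τ k, T = F2 τ k) ∨ (∃ k l, k ≠ l ∧ T = F3 k l) := by
  by_cases h0 : T = ∅
  · exact Or.inl h0
  right
  obtain ⟨⟨a0, τ⟩, hv⟩ := Set.nonempty_iff_ne_empty.2 h0
  obtain ⟨⟨p, s1⟩, ⟨q, s2⟩, hi, hj, hiv, hjv, hnr⟩ := cutprop hT hv
  have hs1 := notside hiv.2
  have hs2 := notside hjv.2
  simp only at hs1 hs2
  subst hs1
  subst hs2
  have hpa : p ≠ a0 := hiv.1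
  have hqa : q ≠ a0 := hjv.1
  have hpq : p ≠ q := by
    rintro rfl
    exact hnr (SimpleGraph.Reachable.refl _)
  have hk : ∀ k, (k, τ) ∉ T → k = p ∨ k = q := by
    intro k hkT
    by_contra hcon
    push Not at hcon
    exact hnr ((reach_adj hi hkT ⟨hcon.1.symm, by simp⟩).trans
      (reach_adj hkT hj ⟨hcon.2, by simp⟩))
  have hside : ∀ b, (b, !τ) ∈ T → ∃ k l, ∃ (h1 : (k, τ) ∉ T) (h2 : (l, τ) ∉ T),
      ¬ ((crown n).induce Tᶜ).Reachable ⟨(k, τ), h1⟩ ⟨(l, τ), h2⟩ := by
    intro b hb
    obtain ⟨⟨k, t1⟩, ⟨l, t2⟩, h1, h2, h3, h4, h5⟩ := cutprop hT hb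
    have ht1 := notside h3.2
    have ht2 := notside h4.2
    simp only [Bool.not_not] at ht1 ht2
    subst ht1
    subst ht2
    exact ⟨k, l, h1, h2, h5⟩
  by_cases hpT : (p, τ) ∈ T <;> by_cases hqT : (q, τ) ∈ T
  · left
    have hall : ∀ k, (k, τ) ∈ T := by
      intro k
      by_contra hkT
      rcases hk k hkT with rfl | rfl
      · exact hkT hpT
      · exact hkT hqT
    refine ⟨τ, ?_⟩
    ext ⟨b, s⟩
    by_cases hs : s = τ
    · subst hs
      simp [F1, hall b]
    · have := notside hs
      subst this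
      simp only [F1, Set.mem_ofPred_eq, hs, iff_false]
      intro hb
      obtain ⟨k, _, h1, _, _⟩ := hside b hb
      exact h1 (hall k)
  · right; left
    refine ⟨τ, q, ?_⟩
    have hall : ∀ k, (k, τ) ∉ T → k = q := by
      intro k hkT
      rcases hk k hkT with rfl | rfl
      · exact absurd hpT hkT
      · rfl
    ext ⟨b, s⟩
    by_cases hs : s = τ
    · subst hs
      simp only [F2, Set.mem_ofPred_eq, true_and]
      constructor
      · rintro hb rfl; exact hqT hb
      · intro hb
        by_contra hcon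
        exact hb (hall b hcon)
    · have := notside hs
      subst this
      simp only [F2, Set.mem_ofPred_eq, hs, false_and, iff_false]
      intro hb
      obtain ⟨k, l, h1, h2, h3⟩ := hside b hb
      have e1 := hall k h1
      have e2 := hall l h2
      subst e1
      subst e2
      exact h3 (SimpleGraph.Reachable.refl _)
  · right; left
    refine ⟨τ, p, ?_⟩
    have hall : ∀ k, (k, τ) ∉ T → k = p := by
      intro k hkT
      rcases hk k hkT with rfl | rfl
      · rfl
      · exact absurd hqT hkT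
    ext ⟨b, s⟩
    by_cases hs : s = τ
    · subst hs
      simp only [F2, Set.mem_ofPred_eq, true_and]
      constructor
      · rintro hb rfl; exact hpT hb
      · intro hb
        by_contra hcon
        exact hb (hall b hcon)
    · have := notside hs
      subst this
      simp only [F2, Set.mem_ofPred_eq, hs, false_and, iff_false]
      intro hb
      obtain ⟨k, l, h1, h2, h3⟩ := hside b hb
      have e1 := hall k h1
      have e2 := hall l h2
      subst e1
      subst e2
      exact h3 (SimpleGraph.Reachable.refl _)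
  · right; right
    refine ⟨p, q, hpq, ?_⟩
    ext ⟨b, s⟩
    by_cases hs : s = τ
    · subst hs
      simp only [F3, Set.mem_ofPred_eq]
      constructor
      · intro hb
        refine ⟨?_, ?_⟩ <;> rintro rfl
        · exact hpT hb
        · exact hqT hb
      · rintro ⟨h1, h2⟩
        by_contra hcon
        rcases hk b hcon with h | h
        · exact h1 h
        · exact h2 h
    · have := notside hs
      subst this
      simp only [F3, Set.mem_ofPred_eq]
      constructor
      · intro hb
        refine ⟨?_, ?_⟩ <;> rintro rfl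
        · exact hi hb
        · exact hj hb
      · rintro ⟨h1, h2⟩
        by_contra hcon
        have r1 := reach_adj hi hqT ⟨hpq, by simp⟩
        have r2 := reach_adj hqT hcon ⟨Ne.symm h2, by simp⟩
        have r3 := reach_adj hcon hpT ⟨h1, by simp⟩
        have r4 := reach_adj hpT hj ⟨hpq, by simp⟩
        exact hnr (((r1.trans r2).trans r3).trans r4)

/-! ## The upper bound -/

theorem sep0 (hn : 3 ≤ n) (u v : Fin n × Bool) (hu : u ∉ (∅ : Set (Fin n × Bool)))
    (hv : v ∉ (∅ : Set (Fin n × Bool))) :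
    ((crown n).induce (∅ : Set (Fin n × Bool))ᶜ).Reachable ⟨u, hu⟩ ⟨v, hv⟩ := by
  obtain ⟨i, a⟩ := u
  obtain ⟨j, b⟩ := v
  have same : ∀ (i j : Fin n) (a : Bool) (h1 : (i, a) ∉ (∅ : Set (Fin n × Bool)))
      (h2 : (j, a) ∉ (∅ : Set (Fin n × Bool))),
      ((crown n).induce (∅ : Set (Fin n × Bool))ᶜ).Reachable ⟨(i, a), h1⟩ ⟨(j, a), h2⟩ := by
    intro i j a h1 h2
    obtain ⟨p, hp, hq⟩ := one_other hn i j
    have h3 : (p, !a) ∉ (∅ : Set (Fin n × Bool)) := Set.notMem_empty _
    exact (reach_adj h1 h3 ⟨hp.symm, by simp⟩).trans (reach_adj h3 h2 ⟨hq, by simp⟩)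
  by_cases hab : a = b
  · subst hab
    exact same i j a hu hv
  · have := notside hab
    subst this
    obtain ⟨p, hp, _⟩ := one_other hn j j
    have h3 : (p, !b) ∉ (∅ : Set (Fin n × Bool)) := Set.notMem_empty _
    exact (same i p (!b) hu h3).trans (reach_adj h3 hv ⟨hp, by simp⟩)

theorem homog_minor {V : Type} (i j : V) : (minor K i j).IsHomogeneous 2 := by
  unfold minor
  exact ((isHomogeneous_X _ _).mul (isHomogeneous_X _ _)).sub
    ((isHomogeneous_X _ _).mul (isHomogeneous_X _ _))

/-- case `T = ∅` -/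
theorem upper0 (hn : 4 ≤ n) : ∃ f : MvPolynomial ((Fin n × Bool) × Bool) K, f.IsHomogeneous 4 ∧
    ∀ g, g ∈ P K (crown n) ∅ ↔ g * f ∈ J K (crown n) := by
  obtain ⟨p, q, hpq, -, -⟩ := two_others (n := n) (by omega) ⟨0, by omega⟩
  obtain ⟨r, hr⟩ := exists_notMem ({p, q} : Finset (Fin n))
    (lt_of_le_of_lt Finset.card_le_two (by omega))
  obtain ⟨s, hs⟩ := exists_notMem ({p, q, r} : Finset (Fin n))
    (lt_of_le_of_lt Finset.card_le_three (by omega))
  simp only [Finset.mem_insert, Finset.mem_singleton, not_or] at hr hs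
  obtain ⟨hrp, hrq⟩ := hr
  obtain ⟨hsp, hsq, hsr⟩ := hs
  have claim : ∀ v : Fin n × Bool, (X ((q, false), false) * X ((r, true), false) *
      X ((s, true), false)) * minor K (p, false) v ∈ J K (crown n) := by
    rintro ⟨i, a⟩
    cases a
    · by_cases hi : i = r
      · have h1 : (crown n).Adj (s, true) (p, false) := ⟨hsp, by simp⟩
        have h2 : (crown n).Adj (s, true) (i, false) := ⟨by rw [hi]; exact hsr, by simp⟩
        have := Ideal.mul_mem_left _ (X ((q, false), false) * X ((r, true), false))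
          (pluck_mem (K := K) h1 h2 false)
        convert this using 1
        ring
      · have h1 : (crown n).Adj (r, true) (p, false) := ⟨hrp, by simp⟩
        have h2 : (crown n).Adj (r, true) (i, false) := ⟨Ne.symm hi, by simp⟩
        have := Ideal.mul_mem_left _ (X ((q, false), false) * X ((s, true), false))
          (pluck_mem (K := K) h1 h2 false)
        convert this using 1
        ring
    · by_cases hi : i = p
      · subst hi
        have h1 : (crown n).Adj (r, true) (q, false) := ⟨hrq, by simp⟩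
        have h2 : (crown n).Adj (r, true) (i, false) := ⟨hrp, by simp⟩
        have h3 : (crown n).Adj (q, false) (i, true) := ⟨Ne.symm hpq, by simp⟩
        have := Ideal.mul_mem_left _ (X ((s, true), false))
          (pluck_mul (K := K) (X ((r, true), false)) (pluck_mem h1 h2 false)
            (Ideal.mul_mem_left _ _ (minor_mem h3)) false)
        convert this using 1
        ring
      · have h1 : (crown n).Adj (p, false) (i, true) := ⟨Ne.symm hi, by simp⟩
        exact Ideal.mul_mem_left _ _ (minor_mem h1)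
  refine ⟨(X ((q, false), false) * X ((r, true), false) * X ((s, true), false)) *
    X ((p, false), false), ?_, ?_⟩
  · exact (((isHomogeneous_X _ _).mul (isHomogeneous_X _ _)).mul (isHomogeneous_X _ _)).mul
      (isHomogeneous_X _ _)
  · refine colon_eq (c := fun _ => ()) lab0.adj (fun i j hi hj _ => sep0 (by omega) i j hi hj)
      _ ?_ ?_ ?_
    · simp only [map_mul]
      exact mul_ne_zero (mul_ne_zero (mul_ne_zero (phi_var_ne _ _ _ _ (Set.notMem_empty _))
        (phi_var_ne _ _ _ _ (Set.notMem_empty _))) (phi_var_ne _ _ _ _ (Set.notMem_empty _)))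
        (phi_var_ne _ _ _ _ (Set.notMem_empty _))
    · exact fun v hv => absurd hv (Set.notMem_empty _)
    · intro i j _ _ _
      rw [mul_comm]
      exact pluck_mul _ (claim i) (claim j) false

/-- case of one side -/
theorem upper1 (hn : 4 ≤ n) (τ : Bool) : ∃ f : MvPolynomial ((Fin n × Bool) × Bool) K,
    f.IsHomogeneous 4 ∧ ∀ g, g ∈ P K (crown n) (F1 n τ) ↔ g * f ∈ J K (crown n) := by
  obtain ⟨p, q, hpq, -, -⟩ := two_others (n := n) (by omega) ⟨0, by omega⟩
  obtain ⟨r, hr⟩ := exists_notMem ({p, q} : Finset (Fin n))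
    (lt_of_le_of_lt Finset.card_le_two (by omega))
  obtain ⟨s, hs⟩ := exists_notMem ({p, q, r} : Finset (Fin n))
    (lt_of_le_of_lt Finset.card_le_three (by omega))
  simp only [Finset.mem_insert, Finset.mem_singleton, not_or] at hr hs
  obtain ⟨hrp, hrq⟩ := hr
  obtain ⟨hsp, hsq, hsr⟩ := hs
  refine ⟨minor K (p, !τ) (q, !τ) * minor K (r, !τ) (s, !τ),
    (homog_minor _ _).mul (homog_minor _ _), ?_⟩
  refine colon_eq (lab1 (by omega) τ).adj ?_ _ ?_ ?_ ?_
  · intro i j hi hj hij
    simp only [id] at hij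
    subst hij
    exact SimpleGraph.Reachable.refl _
  · rw [map_mul]
    refine mul_ne_zero (phi_minor_ne _ _ _ _ ?_ ?_ ?_) (phi_minor_ne _ _ _ _ ?_ ?_ ?_)
    · simp [F1]
    · simp [F1]
    · simpa using hpq
    · simp [F1]
    · simp [F1]
    · simpa using Ne.symm hsr
  · rintro ⟨i, a⟩ hv b
    simp only [F1, Set.mem_ofPred_eq] at hv
    subst hv
    by_cases h : i = p ∨ i = q
    · have h1 : (crown n).Adj (i, a) (r, !a) := by
        refine ⟨?_, by simp⟩
        rcases h with rfl | rfl
        · exact Ne.symm hrp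
        · exact Ne.symm hrq
      have h2 : (crown n).Adj (i, a) (s, !a) := by
        refine ⟨?_, by simp⟩
        rcases h with rfl | rfl
        · exact Ne.symm hsp
        · exact Ne.symm hsq
      have := Ideal.mul_mem_left _ (minor K (p, !a) (q, !a)) (pluck_mem (K := K) h1 h2 b)
      convert this using 1
      ring
    · push Not at h
      have h1 : (crown n).Adj (i, a) (p, !a) := ⟨h.1, by simp⟩
      have h2 : (crown n).Adj (i, a) (q, !a) := ⟨h.2, by simp⟩
      have := Ideal.mul_mem_left _ (minor K (r, !a) (s, !a)) (pluck_mem (K := K) h1 h2 b)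
      convert this using 1
      ring
  · intro i j _ _ hij
    simp only [id] at hij
    subst hij
    rw [minor_self, zero_mul]
    exact Ideal.zero_mem _

theorem notF2 {τ : Bool} {k : Fin n} {v : Fin n × Bool} (hv : v ∉ F2 τ k)
    (hne : v ≠ (k, !τ)) : v = (k, τ) ∨ ((crown n).Adj v (k, τ) ∧ v.2 = !τ) := by
  obtain ⟨i, a⟩ := v
  by_cases ha : a = τ
  · subst ha
    left
    simp only [F2, Set.mem_ofPred_eq, true_and, not_not] at hv
    rw [hv]
  · have := notside ha
    subst this
    right
    refine ⟨⟨?_, by simp⟩, rfl⟩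
    intro h
    apply hne
    simp only at h
    rw [h]

/-- case of one side without one vertex -/
theorem upper2 (hn : 4 ≤ n) (τ : Bool) (k : Fin n) :
    ∃ f : MvPolynomial ((Fin n × Bool) × Bool) K, f.IsHomogeneous 4 ∧
      ∀ g, g ∈ P K (crown n) (F2 τ k) ↔ g * f ∈ J K (crown n) := by
  obtain ⟨p, q, hpq, hpk, hqk⟩ := two_others (n := n) (by omega) k
  refine ⟨minor K (k, τ) (k, !τ) * (X ((p, !τ), false) * X ((q, !τ), false)),
    (homog_minor _ _).mul ((isHomogeneous_X _ _).mul (isHomogeneous_X _ _)), ?_⟩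
  refine colon_eq (lab2 (by omega) τ k).adj ?_ _ ?_ ?_ ?_
  · intro i j hi hj hij
    by_cases h1 : i = (k, !τ)
    · have h2 : j = (k, !τ) := by
        simpa [h1] using hij
      subst h1
      subst h2
      exact SimpleGraph.Reachable.refl _
    · have h2 : j ≠ (k, !τ) := by
        intro h2
        apply h1
        simpa [h2] using hij
      have hk : (k, τ) ∉ F2 τ k := by simp [F2]
      have key : ∀ v (hv : v ∉ F2 τ k), v ≠ (k, !τ) →
          ((crown n).induce (F2 τ k)ᶜ).Reachable ⟨v, hv⟩ ⟨(k, τ), hk⟩ := by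
        intro v hv hne
        rcases notF2 hv hne with rfl | h
        · exact SimpleGraph.Reachable.refl _
        · exact reach_adj hv hk h.1
      exact (key i hi h1).trans (key j hj h2).symm
  · rw [map_mul, map_mul]
    refine mul_ne_zero (phi_minor_ne _ _ _ _ ?_ ?_ ?_)
      (mul_ne_zero (phi_var_ne _ _ _ _ ?_) (phi_var_ne _ _ _ _ ?_))
    · simp [F2]
    · simp [F2]
    · simp
    · simp [F2]
    · simp [F2]
  · rintro ⟨a, t⟩ hv b
    simp only [F2, Set.mem_ofPred_eq] at hv
    obtain ⟨rfl, hak⟩ := hv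
    have key : ∀ u : Fin n, u ≠ k → u ≠ a →
        X ((a, t), b) * (minor K (k, t) (k, !t) * X ((u, !t), false)) ∈ J K (crown n) := by
      intro u huk hua
      have e : X ((a, t), b) * (minor K (k, t) (k, !t) * X ((u, !t), false)) =
          (X ((u, !t), false) * X ((k, t), b)) * minor K (a, t) (k, !t) -
          X ((k, !t), b) * (X ((u, !t), false) * minor K (a, t) (k, t)) := by
        rw [← mul_assoc, pluck]
        ring
      rw [e]
      have h1 : (crown n).Adj (a, t) (k, !t) := ⟨hak, by simp⟩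
      have h2 : (crown n).Adj (u, !t) (a, t) := ⟨hua, by simp⟩
      have h3 : (crown n).Adj (u, !t) (k, t) := ⟨huk, by simp⟩
      exact Ideal.sub_mem _ (Ideal.mul_mem_left _ _ (minor_mem h1))
        (Ideal.mul_mem_left _ _ (pluck_mem h2 h3 false))
    by_cases hpa : p = a
    · have := Ideal.mul_mem_left _ (X ((p, !t), false))
        (key q hqk (fun h => hpq (hpa.trans h.symm)))
      convert this using 1
      ring
    · have := Ideal.mul_mem_left _ (X ((q, !t), false)) (key p hpk hpa)
      convert this using 1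
      ring
  · intro i j hi hj hij
    by_cases h1 : i = (k, !τ)
    · have h2 : j = (k, !τ) := by
        simpa [h1] using hij
      rw [h1, h2, minor_self, zero_mul]
      exact Ideal.zero_mem _
    · have h2 : j ≠ (k, !τ) := by
        intro h2
        apply h1
        simpa [h2] using hij
      rcases notF2 hi h1 with rfl | h3
      · rcases notF2 hj h2 with rfl | h4
        · rw [minor_self, zero_mul]
          exact Ideal.zero_mem _
        · exact Ideal.mul_mem_right _ _ (minor_mem h4.1.symm)
      · rcases notF2 hj h2 with rfl | h4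
        · exact Ideal.mul_mem_right _ _ (minor_mem h3.1)
        · have e : minor K i j * (minor K (k, τ) (k, !τ) *
              (X ((p, !τ), false) * X ((q, !τ), false))) =
            (X ((p, !τ), false) * X ((q, !τ), false)) *
              (X ((k, !τ), true) * (X ((k, τ), false) * minor K i j) -
              X ((k, !τ), false) * (X ((k, τ), true) * minor K i j)) := by
            rw [show minor K (k, τ) (k, !τ) = X ((k, τ), false) * X ((k, !τ), true) -
              X ((k, !τ), false) * X ((k, τ), true) from rfl]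
            ring
          rw [e]
          exact Ideal.mul_mem_left _ _ (Ideal.sub_mem _
            (Ideal.mul_mem_left _ _ (pluck_mem h3.1.symm h4.1.symm false))
            (Ideal.mul_mem_left _ _ (pluck_mem h3.1.symm h4.1.symm true)))

theorem notF3 {k l : Fin n} (hkl : k ≠ l) {u v : Fin n × Bool} (hu : u ∉ F3 k l)
    (hv : v ∉ F3 k l) (h : (decide (u = (k, false) ∨ u = (l, true))) =
      decide (v = (k, false) ∨ v = (l, true))) : u = v ∨ (crown n).Adj u v := by
  obtain ⟨i, a⟩ := u
  obtain ⟨j, b⟩ := v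
  simp only [F3, Set.mem_ofPred_eq, not_and, not_not] at hu hv
  have hi : i = k ∨ i = l := by
    by_cases h : i = k
    · exact Or.inl h
    · exact Or.inr (hu h)
  have hj : j = k ∨ j = l := by
    by_cases h : j = k
    · exact Or.inl h
    · exact Or.inr (hv h)
  rcases hi with rfl | rfl <;> rcases hj with rfl | rfl <;> cases a <;> cases b <;>
    simp_all [crown, Ne.symm]

/-- the case of two remaining indices -/
theorem upper3 {k l : Fin n} (hkl : k ≠ l) :
    ∃ f : MvPolynomial ((Fin n × Bool) × Bool) K, f.IsHomogeneous 4 ∧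
      ∀ g, g ∈ P K (crown n) (F3 k l) ↔ g * f ∈ J K (crown n) := by
  refine ⟨minor K (k, false) (k, true) * minor K (l, false) (l, true),
    (homog_minor _ _).mul (homog_minor _ _), ?_⟩
  refine colon_eq (lab3 hkl).adj ?_ _ ?_ ?_ ?_
  · intro i j hi hj hij
    rcases notF3 hkl hi hj hij with rfl | h
    · exact SimpleGraph.Reachable.refl _
    · exact reach_adj hi hj h
  · rw [map_mul]
    refine mul_ne_zero (phi_minor_ne _ _ _ _ ?_ ?_ ?_) (phi_minor_ne _ _ _ _ ?_ ?_ ?_)
    · simp [F3]
    · simp [F3]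
    · simp [hkl]
    · simp [F3]
    · simp [F3]
    · simp [Ne.symm hkl]
  · rintro ⟨a, t⟩ hv b
    simp only [F3, Set.mem_ofPred_eq] at hv
    obtain ⟨hak, hal⟩ := hv
    have e0 : minor K (k, false) (k, true) * minor K (l, false) (l, true) =
        minor K (k, t) (k, !t) * minor K (l, t) (l, !t) := by
      cases t
      · rfl
      · rw [minor_comm (k, false), minor_comm (l, false), neg_mul_neg]
        rfl
    have e : X ((a, t), b) * (minor K (k, t) (k, !t) * minor K (l, t) (l, !t)) =
        (minor K (l, t) (l, !t) * X ((k, t), b)) * minor K (a, t) (k, !t) -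
        X ((k, !t), b) * (X ((l, t), false) * (X ((l, !t), true) * minor K (a, t) (k, t)) -
          X ((l, t), true) * (X ((l, !t), false) * minor K (a, t) (k, t))) := by
      rw [← mul_assoc, pluck, show minor K (l, t) (l, !t) = X ((l, t), false) *
        X ((l, !t), true) - X ((l, !t), false) * X ((l, t), true) from rfl]
      ring
    rw [e0, e]
    have h1 : (crown n).Adj (a, t) (k, !t) := ⟨hak, by simp⟩
    have h2 : (crown n).Adj (l, !t) (a, t) := ⟨Ne.symm hal, by simp⟩
    have h3 : (crown n).Adj (l, !t) (k, t) := ⟨Ne.symm hkl, by simp⟩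
    exact Ideal.sub_mem _ (Ideal.mul_mem_left _ _ (minor_mem h1))
      (Ideal.mul_mem_left _ _ (Ideal.sub_mem _
        (Ideal.mul_mem_left _ _ (pluck_mem h2 h3 true))
        (Ideal.mul_mem_left _ _ (pluck_mem h2 h3 false))))
  · intro i j hi hj hij
    rcases notF3 hkl hi hj hij with rfl | h
    · rw [minor_self, zero_mul]
      exact Ideal.zero_mem _
    · exact Ideal.mul_mem_right _ _ (minor_mem h)

theorem upper (hn : 4 ≤ n) (T : Set (Fin n × Bool)) (hT : IsCut (crown n) T) :
    ∃ f : MvPolynomial ((Fin n × Bool) × Bool) K, f.IsHomogeneous 4 ∧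
      ∀ g, g ∈ P K (crown n) T ↔ g * f ∈ J K (crown n) := by
  rcases classify T hT with rfl | ⟨τ, rfl⟩ | ⟨τ, k, rfl⟩ | ⟨k, l, hkl, rfl⟩
  · exact upper0 hn
  · exact upper1 hn τ
  · exact upper2 hn τ k
  · exact upper3 hkl

theorem exists_label (hn : 3 ≤ n) (T : Set (Fin n × Bool)) (hT : IsCut (crown n) T) :
    ∃ (L : Type) (c : Fin n × Bool → L) (v : Fin n × Bool), v ∉ T ∧
      ∀ i j, (crown n).Adj i j → i ∉ T → j ∉ T → c i = c j := by
  refine ⟨Unit, fun _ => (), ?_⟩
  rcases classify T hT with rfl | ⟨τ, rfl⟩ | ⟨τ, k, rfl⟩ | ⟨k, l, hkl, rfl⟩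
  · exact ⟨(⟨0, by omega⟩, false), Set.notMem_empty _, fun _ _ _ _ _ => rfl⟩
  · exact ⟨(⟨0, by omega⟩, !τ), by simp [F1], fun _ _ _ _ _ => rfl⟩
  · exact ⟨(k, τ), by simp [F2], fun _ _ _ _ _ => rfl⟩
  · exact ⟨(k, false), by simp [F3], fun _ _ _ _ _ => rfl⟩

/-- For `n ≥ 4` and every `T ∈ 𝒞(G)`, `G` the crown graph `C_{n,n}`, the least degree of a
homogeneous `f` with `J_G : f = P_T(G)` is `4`. -/
theorem result (K : Type*) [Field K] (n : ℕ) (hn : 4 ≤ n) (T : Set (Fin n × Bool))
    (hT : IsCut (crown n) T) :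
    IsLeast {d : ℕ | ∃ f : MvPolynomial ((Fin n × Bool) × Bool) K, f.IsHomogeneous d ∧
      ∀ g, g ∈ P K (crown n) T ↔ g * f ∈ J K (crown n)} 4 := by
  refine ⟨upper hn T hT, ?_⟩
  rintro d ⟨f, hf, hcol⟩
  by_contra hd
  push Not at hd
  obtain ⟨L, c, v, hv, hc⟩ := exists_label (by omega) T hT
  have hX : (X (v, false) ^ (3 - d) * f).IsHomogeneous 3 := by
    have h1 := ((isHomogeneous_X K (v, false)).pow (3 - d)).mul hf
    have h2 : 1 * (3 - d) + d = 3 := by omega
    rwa [h2] at h1
  have h1 := lower (by omega) T _ hX (fun g hg => by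
    have := Ideal.mul_mem_left _ (X (v, false) ^ (3 - d)) ((hcol g).1 hg)
    convert this using 1
    ring)
  have h2 := P_le hc ((hcol _).2 h1)
  rw [map_pow] at h2
  exact pow_ne_zero _ (phi_var_ne T c v false hv) h2

end crown


end Pool.Agent.Results.MP_354fda_al.CrownVNumber
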